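import Pool.Agent.J4H85.CD.Stm

set_option autoImplicit false

/-!
# Pairs of coordinates (helper31, project CD of helper85)
-/

namespace Pool.Agent.J4H31.CD

open Finset H568R2 Pool.Agent.J4H85.CD

section Aux

variable {I : Type} [Fintype I] [DecidableEq I]

/-- the two coordinates -/
def vr (l l' : I) : Bool → I := fun b => if b then l' else l

theorem vr_inj {l l' : I} (h : l ≠ l') : Function.Injective (vr l l') := by
  intro a b hab
  cases a <;> cases b
  · rfl
  · exact absurd hab (by simpa [vr] using h)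
  · exact absurd hab (by simpa [vr] using h.symm)
  · rfl

omit [Fintype I] in
theorem plant_false (l l' : I) (X : I → Bool) : plant (vr l l') {false} X = Function.update X l true := by
  funext i
  unfold plant
  by_cases h : i = l
  · subst h; simp [vr]
  · rw [Function.update_of_ne h]
    simp [vr, Ne.symm h]

omit [Fintype I] in
theorem plant_true (l l' : I) (X : I → Bool) : plant (vr l l') {true} X = Function.update X l' true := by
  funext i
  unfold plant
  by_cases h : i = l'
  · subst h; simp [vr]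
  · rw [Function.update_of_ne h]
    simp [vr, Ne.symm h]

omit [Fintype I] in
theorem plant_both (l l' : I) (X : I → Bool) (h : Finset Bool) (hf : false ∈ h) (ht : true ∈ h) :
    plant (vr l l') h X = Function.update (Function.update X l true) l' true := by
  funext i
  unfold plant
  by_cases h1 : i = l'
  · subst h1
    rw [Function.update_self]
    have : ∃ j ∈ h, vr l i j = i := ⟨true, ht, by simp [vr]⟩
    simp [this]
  · rw [Function.update_of_ne h1]
    by_cases h2 : i = l
    · subst h2
      rw [Function.update_self]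
      have : ∃ j ∈ h, vr i l' j = i := ⟨false, hf, by simp [vr]⟩
      simp [this]
    · rw [Function.update_of_ne h2]
      have : ¬ ∃ j ∈ h, vr l l' j = i := by
        rintro ⟨j, _, hj⟩
        cases j
        · exact h2 (by simpa [vr] using hj.symm)
        · exact h1 (by simpa [vr] using hj.symm)
      simp [this]

theorem jn_sens (f : (I → Bool) → Bool) (X : I → Bool) (l : I × I) (h : l ∈ jn f X) :
    l.1 ≠ l.2 ∧ sens f (vr l.1 l.2) X = univ := by
  unfold jn at h
  rw [mem_filter] at h
  obtain ⟨-, h1, h2, h3⟩ := h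
  refine ⟨?_, ?_⟩
  · intro he
    rw [he, Function.update_idem] at h3
    exact h3 h2
  · rw [eq_univ_iff_forall]
    intro b
    rw [mem_sens]
    cases b
    · refine ⟨{true}, ?_⟩
      rw [plant_true, plant_both _ _ _ _ (by simp) (by simp), h2]
      exact fun e => h3 e.symm
    · refine ⟨{false}, ?_⟩
      rw [plant_false, plant_both _ _ _ _ (by simp) (by simp), h1]
      exact fun e => h3 e.symm

end Aux

open Classical in
theorem t_PAIR : S_PAIR := by
  intro I _ _ f K y q η hy0 hy1 hq0 hq1 hη
  have hw0 : ∀ a, 0 ≤ vp (y / 2) a := vp_nonneg (by linarith) (by linarith)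
  have hw1 : ∀ a, 0 ≤ vp y a := vp_nonneg hy0.le hy1
  have hw2 : ∀ a, 0 ≤ wq q a := wq_nonneg hq0.le hq1
  set P : Finset (I × I) := univ.filter fun l => l.1 ≠ l.2 with hP
  have h1 : Ex (vp (y / 2)) (fun X : I → Bool => ((jn f X).card : ℝ)) ≤
      ∑ l ∈ P, Ex (vp (y / 2)) (fun X : I → Bool => if sens f (vr l.1 l.2) X = univ then (1 : ℝ) else 0) := by
    rw [← Ex_sum]
    refine Ex_mono hw0 fun X => ?_
    rw [Finset.sum_boole]
    have h2 : jn f X ⊆ P.filter fun l => sens f (vr l.1 l.2) X = univ := by
      intro l hl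
      have h3 := jn_sens f X l hl
      rw [mem_filter, hP, mem_filter]
      exact ⟨⟨mem_univ _, h3.1⟩, h3.2⟩
    exact_mod_cast card_le_card h2
  have h2 : (y * q) ^ 2 * Ex (vp (y / 2)) (fun X : I → Bool => ((jn f X).card : ℝ)) ≤
      ∑ l ∈ P, Ex (vp y) (fun Y : I → Bool => Ex (wq q) (fun ρ : Restr I =>
        if Cov f (vr l.1 l.2) univ Y ρ then (1 : ℝ) else 0)) := by
    refine (mul_le_mul_of_nonneg_left h1 (by positivity)).trans ?_
    rw [mul_sum]
    refine sum_le_sum fun l hl => ?_
    have h3 : l.1 ≠ l.2 := (mem_filter.1 hl).2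
    have h4 := sens_prob f (vr l.1 l.2) (vr_inj h3) univ hy0.le hy1 hq0.le hq1
    rw [card_univ, Fintype.card_bool] at h4
    exact h4
  refine h2.trans ?_
  rw [← Ex_sum]
  have h3 : ∀ Y : I → Bool, ∑ l ∈ P, Ex (wq q) (fun ρ : Restr I =>
      if Cov f (vr l.1 l.2) univ Y ρ then (1 : ℝ) else 0) ≤ (K : ℝ) ^ 2 + (Fintype.card I : ℝ) ^ 2 * η := by
    intro Y
    rw [← Ex_sum]
    have h4 : ∀ ρ : Restr I, ∑ l ∈ P, (if Cov f (vr l.1 l.2) univ Y ρ then (1 : ℝ) else 0) ≤
        (K : ℝ) ^ 2 + (Fintype.card I : ℝ) ^ 2 *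
          (if ¬ Junta K (rs (fun x => f (mask Y x)) ρ) then (1 : ℝ) else 0) := by
      intro ρ
      rw [Finset.sum_boole]
      by_cases hJ : Junta K (rs (fun x => f (mask Y x)) ρ)
      · obtain ⟨A, hA, hdep⟩ := hJ
        have h5 : (P.filter fun l => Cov f (vr l.1 l.2) univ Y ρ) ⊆ A ×ˢ A := by
          intro l hl
          have h6 := (mem_filter.1 hl).2 A hdep
          rw [mem_product]
          exact ⟨h6 false (mem_univ _), h6 true (mem_univ _)⟩
        have h7 : (P.filter fun l => Cov f (vr l.1 l.2) univ Y ρ).card ≤ K ^ 2 := by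
          refine (card_le_card h5).trans ?_
          rw [card_product, sq]
          exact Nat.mul_le_mul hA hA
        have h8 : ((P.filter fun l => Cov f (vr l.1 l.2) univ Y ρ).card : ℝ) ≤ (K : ℝ) ^ 2 := by exact_mod_cast h7
        have h9 : 0 ≤ (Fintype.card I : ℝ) ^ 2 *
            (if ¬ Junta K (rs (fun x => f (mask Y x)) ρ) then (1 : ℝ) else 0) := by
          split_ifs <;> positivity
        linarith
      · rw [if_pos hJ]
        have h7 : (P.filter fun l => Cov f (vr l.1 l.2) univ Y ρ).card ≤ (Fintype.card I) ^ 2 := by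
          refine (card_le_univ _).trans ?_
          rw [Fintype.card_prod, sq]
        have h8 : ((P.filter fun l => Cov f (vr l.1 l.2) univ Y ρ).card : ℝ) ≤ (Fintype.card I : ℝ) ^ 2 := by
          exact_mod_cast h7
        have h9 : (0 : ℝ) ≤ (K : ℝ) ^ 2 := by positivity
        linarith
    refine (Ex_mono hw2 h4).trans ?_
    rw [Ex_add, Ex_const (wq_sum q), Ex_smul]
    have h5 := mul_le_mul_of_nonneg_left (hη Y) (by positivity : (0 : ℝ) ≤ (Fintype.card I : ℝ) ^ 2)
    unfold NJ at h5
    linarith
  refine (Ex_mono hw1 h3).trans ?_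
  rw [Ex_const (vp_sum y)]

end Pool.Agent.J4H31.CD
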