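import Pool.Agent.J4H85.CD.Stm2

set_option autoImplicit false

/-!
# Pairs of coordinates and decision trees (helper31, project CD of helper85)
-/

namespace Pool.Agent.J4H31.CD

open Finset H568R2 Pool.Agent.J4H85.CD Pool.Agent.TH163.AC3

section Aux

variable {I : Type} [Fintype I] [DecidableEq I]

/-- two coordinates set to false -/
def z (l l' : I) (X : I → Bool) : I → Bool := Function.update (Function.update X l false) l' false

omit [Fintype I] in
theorem z_left (l l' : I) (X : I → Bool) : z l l' X l = false := by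
  unfold z
  by_cases h : l = l'
  · subst h; rw [Function.update_self]
  · rw [Function.update_of_ne h, Function.update_self]

omit [Fintype I] in
theorem z_right (l l' : I) (X : I → Bool) : z l l' X l' = false := by
  unfold z
  rw [Function.update_self]

omit [Fintype I] in
theorem z_of_ne (l l' i : I) (X : I → Bool) (h : i ≠ l) (h' : i ≠ l') : z l l' X i = X i := by
  unfold z
  rw [Function.update_of_ne h', Function.update_of_ne h]

theorem mem_jn (f : (I → Bool) → Bool) (X : I → Bool) (l : I × I) : l ∈ jn f X ↔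
    f (Function.update X l.1 true) = f X ∧ f (Function.update X l.2 true) = f X ∧
    f (Function.update (Function.update X l.1 true) l.2 true) ≠ f X := by
  unfold jn
  rw [mem_filter]
  simp only [mem_univ, true_and]

theorem jn_ne (f : (I → Bool) → Bool) (X : I → Bool) (l : I × I) (h : l ∈ jn f X) :
    l.1 ≠ l.2 ∧ z l.1 l.2 X = X := by
  rw [mem_jn] at h
  obtain ⟨h1, h2, h3⟩ := h
  have hne : l.1 ≠ l.2 := by
    intro he
    rw [he, Function.update_idem] at h3
    exact h3 h2
  refine ⟨hne, ?_⟩
  have e1 : X l.1 = false := by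
    by_contra hc
    rw [Bool.not_eq_false] at hc
    have : Function.update X l.1 true = X := by
      rw [← hc, Function.update_eq_self]
    rw [this] at h3
    exact h3 h2
  have e2 : X l.2 = false := by
    by_contra hc
    rw [Bool.not_eq_false] at hc
    have : Function.update (Function.update X l.1 true) l.2 true = Function.update X l.1 true := by
      rw [Function.update_eq_self_iff, Function.update_of_ne hne.symm, hc]
    rw [this] at h3
    exact h3 h1
  funext i
  by_cases hi1 : i = l.1
  · rw [hi1, z_left, e1]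
  · by_cases hi2 : i = l.2
    · rw [hi2, z_right, e2]
    · rw [z_of_ne _ _ _ _ hi1 hi2]

omit [Fintype I] in
theorem reads_update (t : Pool.Agent.TH163.AC3.Tree I) (D : I → Bool) (x : I) (b : Bool) (h : x ∈ t.reads D) :
    x ∈ t.reads (Function.update D x b) := by
  by_contra hc
  have h1 := t.congr (Function.update D x b) D (fun i hi => by
    have : i ≠ x := fun e => hc (e ▸ hi)
    rw [Function.update_of_ne this])
  rw [h1.2] at h
  exact hc h

/-- the case distinction for the tree -/
theorem tree_case (t : Pool.Agent.TH163.AC3.Tree I) (D : I → Bool) (l : I × I) (h : l ∈ jn t.eval (z l.1 l.2 D)) :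
    (l.1 ∈ t.reads (Function.update (z l.1 l.2 D) l.1 true) ∧ l.2 ∈ t.reads (Function.update (z l.1 l.2 D) l.1 true)) ∨
    (l.1 ∈ t.reads (Function.update (z l.1 l.2 D) l.2 true) ∧ l.2 ∈ t.reads (Function.update (z l.1 l.2 D) l.2 true)) := by
  obtain ⟨hne, -⟩ := jn_ne _ _ _ h
  rw [mem_jn] at h
  obtain ⟨h1, h2, h3⟩ := h
  set D₀ := z l.1 l.2 D with hD
  have a1 : l.2 ∈ t.reads (Function.update D₀ l.1 true) := by
    by_contra hc
    have e1 := (t.congr (Function.update D₀ l.1 true) (Function.update (Function.update D₀ l.1 true) l.2 true)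
      (fun i hi => by
        have : i ≠ l.2 := fun e => hc (e ▸ hi)
        rw [Function.update_of_ne this])).1
    rw [e1] at h3
    exact h3 h1
  have a2 : l.1 ∈ t.reads (Function.update D₀ l.2 true) := by
    by_contra hc
    have e1 := (t.congr (Function.update D₀ l.2 true) (Function.update (Function.update D₀ l.2 true) l.1 true)
      (fun i hi => by
        have : i ≠ l.1 := fun e => hc (e ▸ hi)
        rw [Function.update_of_ne this])).1
    rw [Function.update_comm hne, e1] at h3
    exact h3 h2
  by_cases b1 : l.1 ∈ t.reads D₀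
  · exact Or.inl ⟨reads_update t D₀ l.1 true b1, a1⟩
  · by_cases b2 : l.2 ∈ t.reads D₀
    · exact Or.inr ⟨a2, reads_update t D₀ l.2 true b2⟩
    · exfalso
      have e1 := (t.congr D₀ (Function.update (Function.update D₀ l.1 true) l.2 true) (fun i hi => by
        have c1 : i ≠ l.1 := fun e => b1 (e ▸ hi)
        have c2 : i ≠ l.2 := fun e => b2 (e ▸ hi)
        rw [Function.update_of_ne c2, Function.update_of_ne c1])).1
      exact h3 e1

theorem half (F : (I → Bool) → ℝ) (hF : ∀ D, 0 ≤ F D) (i : I) (b : Bool) :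
    Ex (vp (1 / 2)) (fun D : I → Bool => F (Function.update D i b)) ≤ 2 * Ex (vp (1 / 2)) F := by
  rw [Ex_resample (vp_sum _) F i, ← Ex_smul]
  refine Ex_mono (vp_nonneg (by norm_num) (by norm_num)) fun D => ?_
  rw [Fintype.sum_bool]
  have h1 := hF (Function.update D i true)
  have h2 := hF (Function.update D i false)
  unfold vp
  cases b <;> linarith

theorem half2 (F : (I → Bool) → ℝ) (hF : ∀ D, 0 ≤ F D) (i j : I) (b c : Bool) :
    Ex (vp (1 / 2)) (fun D : I → Bool => F (Function.update (Function.update D i b) j c)) ≤ 4 * Ex (vp (1 / 2)) F := by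
  have h1 := half (fun D => F (Function.update D j c)) (fun D => hF _) i b
  have h2 := half F hF j c
  linarith

theorem upd1 (l l' : I) (h : l ≠ l') (D : I → Bool) :
    Function.update (z l l' D) l true = Function.update (Function.update D l true) l' false := by
  funext i
  unfold z
  by_cases h1 : i = l
  · subst h1
    rw [Function.update_self, Function.update_of_ne h, Function.update_self]
  · by_cases h2 : i = l'
    · subst h2
      rw [Function.update_of_ne h1, Function.update_self, Function.update_self]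
    · rw [Function.update_of_ne h1, Function.update_of_ne h2, Function.update_of_ne h1, Function.update_of_ne h2,
        Function.update_of_ne h1]

theorem upd2 (l l' : I) (D : I → Bool) :
    Function.update (z l l' D) l' true = Function.update (Function.update D l false) l' true := by
  unfold z
  rw [Function.update_idem]

open Classical in
/-- the pairs for a decision tree -/
theorem tree_pairs (g : (I → Bool) → Bool) (K : ℕ) (hg : HasDT K g) :
    ∑ l ∈ (univ : Finset (I × I)).filter (fun l => l.1 ≠ l.2),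
      Ex (vp (1 / 2)) (fun D : I → Bool => if l ∈ jn g (z l.1 l.2 D) then (1 : ℝ) else 0) ≤ 2 * (K : ℝ) ^ 2 := by
  obtain ⟨t, ht, hgt⟩ := hg
  have hgt' : t.eval = g := funext hgt
  subst hgt'
  have hw : ∀ a, 0 ≤ vp (1 / 2) a := vp_nonneg (by norm_num) (by norm_num)
  let F1 : I × I → (I → Bool) → ℝ := fun l D =>
    if l.1 ∈ t.reads D ∧ l.2 ∈ t.reads D ∧ D l.1 = true ∧ D l.2 = false then 1 else 0
  let F2 : I × I → (I → Bool) → ℝ := fun l D =>
    if l.1 ∈ t.reads D ∧ l.2 ∈ t.reads D ∧ D l.1 = false ∧ D l.2 = true then 1 else 0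
  have hF1 : ∀ l D, 0 ≤ F1 l D := fun l D => by simp only [F1]; split_ifs <;> norm_num
  have hF2 : ∀ l D, 0 ≤ F2 l D := fun l D => by simp only [F2]; split_ifs <;> norm_num
  have h1 : ∀ l ∈ (univ : Finset (I × I)).filter (fun l => l.1 ≠ l.2),
      Ex (vp (1 / 2)) (fun D : I → Bool => if l ∈ jn t.eval (z l.1 l.2 D) then (1 : ℝ) else 0) ≤
      4 * Ex (vp (1 / 2)) (F1 l) + 4 * Ex (vp (1 / 2)) (F2 l) := by
    intro l hl
    have hne : l.1 ≠ l.2 := (mem_filter.1 hl).2
    have e1 := half2 (F1 l) (hF1 l) l.1 l.2 true false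
    have e2 := half2 (F2 l) (hF2 l) l.1 l.2 false true
    refine le_trans ?_ (add_le_add e1 e2)
    rw [← Ex_add]
    refine Ex_mono hw fun D => ?_
    by_cases h : l ∈ jn t.eval (z l.1 l.2 D)
    · rw [if_pos h]
      rcases tree_case t D l h with h2 | h2
      · rw [upd1 _ _ hne] at h2
        have h3 : F1 l (Function.update (Function.update D l.1 true) l.2 false) = 1 := by
          simp only [F1]
          rw [if_pos]
          refine ⟨h2.1, h2.2, ?_, ?_⟩
          · rw [Function.update_of_ne hne, Function.update_self]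
          · rw [Function.update_self]
        have h4 := hF2 l (Function.update (Function.update D l.1 false) l.2 true)
        linarith
      · rw [upd2] at h2
        have h3 : F2 l (Function.update (Function.update D l.1 false) l.2 true) = 1 := by
          simp only [F2]
          rw [if_pos]
          refine ⟨h2.1, h2.2, ?_, ?_⟩
          · rw [Function.update_of_ne hne, Function.update_self]
          · rw [Function.update_self]
        have h4 := hF1 l (Function.update (Function.update D l.1 true) l.2 false)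
        linarith
    · rw [if_neg h]
      have h3 := hF1 l (Function.update (Function.update D l.1 true) l.2 false)
      have h4 := hF2 l (Function.update (Function.update D l.1 false) l.2 true)
      linarith
  refine (sum_le_sum h1).trans ?_
  rw [sum_add_distrib, ← mul_sum, ← mul_sum, ← Ex_sum, ← Ex_sum]
  -- the product of the numbers of the two kinds of read coordinates
  have key : ∀ (b : Bool) (D : I → Bool), (∑ l ∈ (univ : Finset (I × I)).filter (fun l => l.1 ≠ l.2),
      if l.1 ∈ t.reads D ∧ l.2 ∈ t.reads D ∧ D l.1 = b ∧ D l.2 = !b then (1 : ℝ) else 0) ≤ (K : ℝ) ^ 2 / 4 := by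
    intro b D
    rw [Finset.sum_boole]
    set R1 := (t.reads D).filter fun i => D i = b with hR1
    set R2 := (t.reads D).filter fun i => D i = !b with hR2
    have e1 : (((univ : Finset (I × I)).filter (fun l => l.1 ≠ l.2)).filter fun l =>
        l.1 ∈ t.reads D ∧ l.2 ∈ t.reads D ∧ D l.1 = b ∧ D l.2 = !b) ⊆ R1 ×ˢ R2 := by
      intro l hl
      have := (mem_filter.1 hl).2
      rw [mem_product, hR1, hR2, mem_filter, mem_filter]
      exact ⟨⟨this.1, this.2.2.1⟩, ⟨this.2.1, this.2.2.2⟩⟩
    have e2 := card_le_card e1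
    rw [card_product] at e2
    have e3 : R1.card + R2.card ≤ K := by
      have d : Disjoint R1 R2 := by
        rw [Finset.disjoint_left]
        intro i h1 h2
        rw [hR1, mem_filter] at h1
        rw [hR2, mem_filter] at h2
        rw [h1.2] at h2
        cases b <;> simp at h2
      rw [← card_union_of_disjoint d]
      refine le_trans (card_le_card ?_) ((t.card_reads D).trans ht)
      rw [hR1, hR2]
      exact union_subset (filter_subset _ _) (filter_subset _ _)
    have e4 : ((R1.card * R2.card : ℕ) : ℝ) ≤ (K : ℝ) ^ 2 / 4 := by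
      push_cast
      have e5 : (R1.card : ℝ) + R2.card ≤ K := by exact_mod_cast e3
      have e6 : (0 : ℝ) ≤ R1.card := Nat.cast_nonneg _
      have e7 : (0 : ℝ) ≤ R2.card := Nat.cast_nonneg _
      nlinarith [sq_nonneg ((R1.card : ℝ) - R2.card)]
    refine le_trans ?_ e4
    exact_mod_cast e2
  have k1 : Ex (vp (1 / 2)) (fun D : I → Bool => ∑ l ∈ (univ : Finset (I × I)).filter (fun l => l.1 ≠ l.2), F1 l D) ≤
      (K : ℝ) ^ 2 / 4 := by
    rw [← Ex_const (I := I) (vp_sum (1 / 2)) ((K : ℝ) ^ 2 / 4)]
    exact Ex_mono hw fun D => key true D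
  have k2 : Ex (vp (1 / 2)) (fun D : I → Bool => ∑ l ∈ (univ : Finset (I × I)).filter (fun l => l.1 ≠ l.2), F2 l D) ≤
      (K : ℝ) ^ 2 / 4 := by
    rw [← Ex_const (I := I) (vp_sum (1 / 2)) ((K : ℝ) ^ 2 / 4)]
    exact Ex_mono hw fun D => key false D
  linarith

/-- the restricted masked function at the point `z l l' D` -/
theorem jn_transfer (f : (I → Bool) → Bool) (l : I × I) (Y : I → Bool) (ρ : Restr I) (D : I → Bool)
    (h1 : Y l.1 = true ∧ ρ l.1 = none) (h2 : Y l.2 = true ∧ ρ l.2 = none)
    (h : l ∈ jn f (z l.1 l.2 (fun i => Y i && (ρ i).getD (D i)))) :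
    l ∈ jn (rs (fun x => f (mask Y x)) ρ) (z l.1 l.2 D) := by
  have hne := (jn_ne _ _ _ h).1
  have key : ∀ T : I → Bool, (∀ i, i ≠ l.1 → i ≠ l.2 → T i = D i) →
      mask Y (ov ρ T) = fun i => if i = l.1 ∨ i = l.2 then T i else Y i && (ρ i).getD (D i) := by
    intro T hT
    funext i
    unfold mask ov
    by_cases hi1 : i = l.1
    · rw [if_pos (Or.inl hi1), hi1, h1.1, h1.2]
      simp
    · by_cases hi2 : i = l.2
      · rw [if_pos (Or.inr hi2), hi2, h2.1, h2.2]
        simp
      · rw [if_neg (by tauto), hT i hi1 hi2]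
  set X : I → Bool := fun i => Y i && (ρ i).getD (D i) with hX
  have k0 : mask Y (ov ρ (z l.1 l.2 D)) = z l.1 l.2 X := by
    rw [key _ (fun i a b => z_of_ne _ _ _ _ a b)]
    funext i
    by_cases hi1 : i = l.1
    · rw [if_pos (Or.inl hi1), hi1, z_left, z_left]
    · by_cases hi2 : i = l.2
      · rw [if_pos (Or.inr hi2), hi2, z_right, z_right]
      · rw [if_neg (by tauto), z_of_ne _ _ _ _ hi1 hi2]
  have k1 : mask Y (ov ρ (Function.update (z l.1 l.2 D) l.1 true)) = Function.update (z l.1 l.2 X) l.1 true := by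
    rw [key _ (fun i a b => by rw [Function.update_of_ne a, z_of_ne _ _ _ _ a b])]
    funext i
    by_cases hi1 : i = l.1
    · rw [if_pos (Or.inl hi1), hi1, Function.update_self, Function.update_self]
    · by_cases hi2 : i = l.2
      · rw [if_pos (Or.inr hi2), hi2, Function.update_of_ne hne.symm, Function.update_of_ne hne.symm, z_right, z_right]
      · rw [if_neg (by tauto), Function.update_of_ne hi1, z_of_ne _ _ _ _ hi1 hi2]
  have k2 : mask Y (ov ρ (Function.update (z l.1 l.2 D) l.2 true)) = Function.update (z l.1 l.2 X) l.2 true := by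
    rw [key _ (fun i a b => by rw [Function.update_of_ne b, z_of_ne _ _ _ _ a b])]
    funext i
    by_cases hi1 : i = l.1
    · rw [if_pos (Or.inl hi1), hi1, Function.update_of_ne hne, Function.update_of_ne hne, z_left, z_left]
    · by_cases hi2 : i = l.2
      · rw [if_pos (Or.inr hi2), hi2, Function.update_self, Function.update_self]
      · rw [if_neg (by tauto), Function.update_of_ne hi2, z_of_ne _ _ _ _ hi1 hi2]
  have k3 : mask Y (ov ρ (Function.update (Function.update (z l.1 l.2 D) l.1 true) l.2 true)) =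
      Function.update (Function.update (z l.1 l.2 X) l.1 true) l.2 true := by
    rw [key _ (fun i a b => by rw [Function.update_of_ne b, Function.update_of_ne a, z_of_ne _ _ _ _ a b])]
    funext i
    by_cases hi1 : i = l.1
    · rw [if_pos (Or.inl hi1), hi1, Function.update_of_ne hne, Function.update_of_ne hne, Function.update_self,
        Function.update_self]
    · by_cases hi2 : i = l.2
      · rw [if_pos (Or.inr hi2), hi2, Function.update_self, Function.update_self]
      · rw [if_neg (by tauto), Function.update_of_ne hi2, Function.update_of_ne hi1, z_of_ne _ _ _ _ hi1 hi2]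
  rw [mem_jn] at h ⊢
  unfold rs
  simp only
  rw [k0, k1, k2, k3]
  exact h

open Classical in
/-- the comparison for one pair -/
theorem pair_prob (f : (I → Bool) → Bool) (l : I × I) (hne : l.1 ≠ l.2) {y q : ℝ} (hy0 : 0 ≤ y) (hy1 : y ≤ 1)
    (hq0 : 0 ≤ q) (hq1 : q ≤ 1) :
    (y * q) ^ 2 * Ex (vp (y / 2)) (fun X : I → Bool => if l ∈ jn f X then (1 : ℝ) else 0) ≤
    Ex (vp y) (fun Y : I → Bool => Ex (wq q) (fun ρ : Restr I => Ex (vp (1 / 2)) (fun D : I → Bool =>
      if l ∈ jn (rs (fun x => f (mask Y x)) ρ) (z l.1 l.2 D) then (1 : ℝ) else 0))) := by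
  set φ : (I → Bool) → ℝ := fun X => if l ∈ jn f (z l.1 l.2 X) then (1 : ℝ) else 0 with hφ
  have h1 : Ex (vp (y / 2)) (fun X : I → Bool => if l ∈ jn f X then (1 : ℝ) else 0) ≤
      Ex (vp (y / 2)) φ := by
    apply Ex_mono (vp_nonneg (by linarith) (by linarith))
    intro X
    rw [hφ]
    by_cases h : l ∈ jn f X
    · have h2 := (jn_ne f X l h).2
      simp only
      rw [h2]
    · rw [if_neg h]
      simp only
      split_ifs <;> norm_num
  set W : Bool × (Option Bool × Bool) → ℝ :=
    fun c => vp y c.1 * (fun e : Option Bool × Bool => wq q e.1 * vp (1 / 2) e.2) c.2 with hW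
  set hm : Bool × (Option Bool × Bool) → Bool := fun c => c.1 && c.2.1.getD c.2.2 with hhm
  have hpush := Ex_push (I := I) hm W (vp (y / 2)) (by
    intro b
    rw [Finset.sum_filter, Fintype.sum_prod_type]
    simp only [Fintype.sum_prod_type, Fintype.sum_option, Fintype.sum_bool, hW, hhm]
    rcases b with _ | _ <;> simp [wq, vp] <;> ring) φ
  have hWsum : ∑ a, W a = 1 := by
    simp only [Fintype.sum_prod_type, Fintype.sum_option, Fintype.sum_bool, hW]
    simp [wq, vp]
    ring
  have hWnn : ∀ a, 0 ≤ W a := by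
    intro a
    rw [hW]
    exact mul_nonneg (vp_nonneg hy0 hy1 _) (mul_nonneg (wq_nonneg hq0 hq1 _)
      (vp_nonneg (by norm_num) (by norm_num) _))
  have hind := Ex_indep (I := I) hWsum (fun c : Bool × (Option Bool × Bool) =>
      c.1 = true ∧ c.2.1 = none) ({l.1, l.2} : Finset I) (fun ω => φ (fun i => hm (ω i))) (by
    intro i hi ω a
    have hzz : z l.1 l.2 (fun j => hm (Function.update ω i a j)) = z l.1 l.2 (fun j => hm (ω j)) := by
      funext j
      by_cases hj1 : j = l.1
      · rw [hj1, z_left, z_left]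
      · by_cases hj2 : j = l.2
        · rw [hj2, z_right, z_right]
        · rw [z_of_ne _ _ _ _ hj1 hj2, z_of_ne _ _ _ _ hj1 hj2]
          have : j ≠ i := by
            rw [mem_insert, mem_singleton] at hi
            rintro rfl
            tauto
          rw [Function.update_of_ne this]
    show (if l ∈ jn f (z l.1 l.2 (fun j => hm (Function.update ω i a j))) then (1 : ℝ) else 0) =
      (if l ∈ jn f (z l.1 l.2 (fun j => hm (ω j))) then (1 : ℝ) else 0)
    rw [hzz])
  have hGsum : ∑ a ∈ univ.filter (fun c : Bool × (Option Bool × Bool) =>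
      c.1 = true ∧ c.2.1 = none), W a = y * q := by
    rw [Finset.sum_filter]
    simp only [Fintype.sum_prod_type, Fintype.sum_option, Fintype.sum_bool, hW]
    simp [wq, vp]
    ring
  rw [hGsum, Finset.card_pair hne] at hind
  calc (y * q) ^ 2 * Ex (vp (y / 2)) (fun X : I → Bool => if l ∈ jn f X then (1 : ℝ) else 0)
      ≤ (y * q) ^ 2 * Ex (vp (y / 2)) φ := mul_le_mul_of_nonneg_left h1 (by positivity)
    _ = (y * q) ^ 2 * Ex W (fun ω => φ (fun i => hm (ω i))) := by rw [hpush]
    _ = Ex W (fun ω => φ (fun i => hm (ω i)) *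
        (if ∀ i ∈ ({l.1, l.2} : Finset I), (ω i).1 = true ∧ (ω i).2.1 = none then 1 else 0)) := by
        rw [hind]
    _ ≤ Ex W (fun ω => if l ∈ jn (rs (fun x => f (mask (fun i => (ω i).1) x)) (fun i => (ω i).2.1))
          (z l.1 l.2 (fun i => (ω i).2.2)) then (1 : ℝ) else 0) := by
        apply Ex_mono hWnn
        intro ω
        by_cases hG : ∀ i ∈ ({l.1, l.2} : Finset I), (ω i).1 = true ∧ (ω i).2.1 = none
        · by_cases hB : l ∈ jn f (z l.1 l.2 (fun i => hm (ω i)))
          · have h3 := jn_transfer f l (fun i => (ω i).1) (fun i => (ω i).2.1) (fun i => (ω i).2.2)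
              (hG l.1 (by simp)) (hG l.2 (by simp)) hB
            show (if l ∈ jn f (z l.1 l.2 (fun i => hm (ω i))) then (1 : ℝ) else 0) * _ ≤ _
            rw [if_pos hB, if_pos hG, if_pos h3, mul_one]
          · show (if l ∈ jn f (z l.1 l.2 (fun i => hm (ω i))) then (1 : ℝ) else 0) * _ ≤ _
            rw [if_neg hB, zero_mul]
            split_ifs <;> norm_num
        · rw [if_neg hG, mul_zero]
          split_ifs <;> norm_num
    _ = _ := by
        refine (Ex_prod (I := I) (vp y)
          (fun e : Option Bool × Bool => wq q e.1 * vp (1 / 2) e.2) _).trans ?_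
        congr 1
        funext Y
        exact Ex_prod (I := I) (wq q) (vp (1 / 2)) _

end Aux

open Classical in
theorem t_PAIR2 : S_PAIR2 := by
  intro I _ _ f K y q η hy0 hy1 hq0 hq1 hη
  have hw0 : ∀ a, 0 ≤ vp (y / 2) a := vp_nonneg (by linarith) (by linarith)
  have hw1 : ∀ a, 0 ≤ vp y a := vp_nonneg hy0.le hy1
  have hw2 : ∀ a, 0 ≤ wq q a := wq_nonneg hq0.le hq1
  have hw3 : ∀ a, 0 ≤ vp (1 / 2) a := vp_nonneg (by norm_num) (by norm_num)
  have h1 : Ex (vp (y / 2)) (fun X : I → Bool => ((jn f X).card : ℝ)) ≤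
      ∑ l ∈ (univ : Finset (I × I)).filter (fun l => l.1 ≠ l.2),
        Ex (vp (y / 2)) (fun X : I → Bool => if l ∈ jn f X then (1 : ℝ) else 0) := by
    rw [← Ex_sum]
    refine Ex_mono hw0 fun X => ?_
    rw [Finset.sum_boole]
    have h2 : jn f X ⊆ ((univ : Finset (I × I)).filter (fun l => l.1 ≠ l.2)).filter fun l => l ∈ jn f X := by
      intro l hl
      rw [mem_filter, mem_filter]
      exact ⟨⟨mem_univ _, (jn_ne f X l hl).1⟩, hl⟩
    exact_mod_cast card_le_card h2
  refine (mul_le_mul_of_nonneg_left h1 (by positivity)).trans ?_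
  rw [mul_sum]
  refine (sum_le_sum fun l hl => pair_prob f l (mem_filter.1 hl).2 hy0.le hy1 hq0.le hq1).trans ?_
  rw [← Ex_sum]
  have h3 : ∀ Y : I → Bool, ∑ l ∈ (univ : Finset (I × I)).filter (fun l => l.1 ≠ l.2),
      Ex (wq q) (fun ρ : Restr I => Ex (vp (1 / 2)) (fun D : I → Bool =>
        if l ∈ jn (rs (fun x => f (mask Y x)) ρ) (z l.1 l.2 D) then (1 : ℝ) else 0)) ≤
      2 * (K : ℝ) ^ 2 + (Fintype.card I : ℝ) ^ 2 * η := by
    intro Y
    rw [← Ex_sum]
    have h4 : ∀ ρ : Restr I, ∑ l ∈ (univ : Finset (I × I)).filter (fun l => l.1 ≠ l.2),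
        Ex (vp (1 / 2)) (fun D : I → Bool =>
          if l ∈ jn (rs (fun x => f (mask Y x)) ρ) (z l.1 l.2 D) then (1 : ℝ) else 0) ≤
        2 * (K : ℝ) ^ 2 + (Fintype.card I : ℝ) ^ 2 *
          (if ¬ HasDT K (rs (fun x => f (mask Y x)) ρ) then (1 : ℝ) else 0) := by
      intro ρ
      by_cases hJ : HasDT K (rs (fun x => f (mask Y x)) ρ)
      · have h5 := tree_pairs _ K hJ
        have h9 : 0 ≤ (Fintype.card I : ℝ) ^ 2 *
            (if ¬ HasDT K (rs (fun x => f (mask Y x)) ρ) then (1 : ℝ) else 0) := by
          split_ifs <;> positivity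
        linarith
      · rw [if_pos hJ]
        have h5 : ∑ l ∈ (univ : Finset (I × I)).filter (fun l => l.1 ≠ l.2),
            Ex (vp (1 / 2)) (fun D : I → Bool =>
              if l ∈ jn (rs (fun x => f (mask Y x)) ρ) (z l.1 l.2 D) then (1 : ℝ) else 0) ≤
            ∑ l ∈ (univ : Finset (I × I)).filter (fun l => l.1 ≠ l.2), (1 : ℝ) := by
          refine sum_le_sum fun l _ => ?_
          have h6 := Ex_const (I := I) (vp_sum (1 / 2)) (1 : ℝ)
          refine le_trans (Ex_mono hw3 (G := fun _ => 1) fun D => ?_) h6.le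
          split_ifs <;> norm_num
        have h7 : ((univ : Finset (I × I)).filter (fun l => l.1 ≠ l.2)).card ≤ (Fintype.card I) ^ 2 := by
          refine (card_le_univ _).trans ?_
          rw [Fintype.card_prod, sq]
        have h8 : (((univ : Finset (I × I)).filter (fun l => l.1 ≠ l.2)).card : ℝ) ≤ (Fintype.card I : ℝ) ^ 2 := by
          exact_mod_cast h7
        rw [sum_const, nsmul_eq_mul, mul_one] at h5
        have h9 : (0 : ℝ) ≤ (K : ℝ) ^ 2 := by positivity
        linarith
    refine (Ex_mono hw2 h4).trans ?_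
    rw [Ex_add, Ex_const (wq_sum q), Ex_smul]
    have h5 := mul_le_mul_of_nonneg_left (hη Y) (by positivity : (0 : ℝ) ≤ (Fintype.card I : ℝ) ^ 2)
    unfold NT at h5
    linarith
  refine (Ex_mono hw1 h3).trans ?_
  rw [Ex_const (vp_sum y)]

end Pool.Agent.J4H31.CD
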