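import Pool.Agent.J4H85.CD.Stm2

set_option autoImplicit false

/-!
# The upper bound (helper31, project CD of helper85)
-/

namespace Pool.Agent.J4H31.CD

open Finset H568R2 Pool.Agent.J4H85.CD

theorem card_pairs2 {k u : ℕ} (J : Finset (Slot k u × Slot k u)) :
    ∑ i : Fin k, ∑ j : Fin k, (univ.filter (fun e : Fin u =>
      (((false, i, e), (true, j, e)) : Slot k u × Slot k u) ∈ J)).card ≤ J.card := by
  classical
  have h1 : ∑ i : Fin k, ∑ j : Fin k, (univ.filter (fun e : Fin u =>
      (((false, i, e), (true, j, e)) : Slot k u × Slot k u) ∈ J)).card =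
      (univ.filter (fun t : Fin k × Fin k × Fin u =>
        (((false, t.1, t.2.2), (true, t.2.1, t.2.2)) : Slot k u × Slot k u) ∈ J)).card := by
    rw [card_filter, Fintype.sum_prod_type]
    refine sum_congr rfl fun i _ => ?_
    rw [Fintype.sum_prod_type]
    refine sum_congr rfl fun j _ => ?_
    rw [card_filter]
  rw [h1]
  refine card_le_card_of_injOn (fun t : Fin k × Fin k × Fin u =>
    (((false, t.1, t.2.2), (true, t.2.1, t.2.2)) : Slot k u × Slot k u)) ?_ ?_
  · intro t ht
    exact (mem_filter.1 (mem_coe.1 ht)).2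
  · rintro ⟨i, j, e⟩ _ ⟨i', j', e'⟩ _ h
    simp only [Prod.mk.injEq, true_and] at h
    obtain ⟨⟨h1, h2⟩, h3, -⟩ := h
    rw [h1, h2, h3]

theorem t_UP2 : S_TAIL2 → S_PAIR2 → S_QRY → S_UP2 := by
  intro hT hP hQ k u s w T K V F nx an y q η hy0 hy1 hq0 hq1 hη hV
  have hw0 : ∀ a, 0 ≤ vp (y / 2) a := vp_nonneg (by linarith) (by linarith)
  have hpt : ∀ X : Slot k u → Bool, ∑ i : Fin k, ∑ j : Fin k,
      ((univ.filter (fun e : Fin u =>
        an i j (rd (nx i j) (fun c b => F c b (pl2 i j e X)) T) ≠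
        an i j (rd (nx i j) (fun c b => F c b X) T))).card : ℝ) ≤
      (k : ℝ) ^ 2 * u * (∑ c : Fin s, ∑ b : Fin w, (if V ≤ (sn (F c b) X).card then (1 : ℝ) else 0)) +
      ((k : ℝ) ^ 2 * (2 * (T * w * V)) + ∑ c : Fin s, ∑ b : Fin w, ((jn (F c b) X).card : ℝ)) := by
    intro X
    have hn1 : ∀ c : Fin s, 0 ≤ ∑ b : Fin w, (if V ≤ (sn (F c b) X).card then (1 : ℝ) else 0) :=
      fun c => sum_nonneg fun b _ => by split_ifs <;> norm_num
    by_cases hbad : ∃ c b, V ≤ (sn (F c b) X).card
    · obtain ⟨c, b, hcb⟩ := hbad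
      have h1 : (1 : ℝ) ≤ ∑ c : Fin s, ∑ b : Fin w, (if V ≤ (sn (F c b) X).card then (1 : ℝ) else 0) := by
        refine le_trans ?_ (single_le_sum (fun c _ => hn1 c) (mem_univ c))
        refine le_trans ?_ (single_le_sum (f := fun b => if V ≤ (sn (F c b) X).card then (1 : ℝ) else 0)
          (fun b _ => by split_ifs <;> norm_num) (mem_univ b))
        rw [if_pos hcb]
      have h2 : ∑ i : Fin k, ∑ j : Fin k,
          ((univ.filter (fun e : Fin u =>
            an i j (rd (nx i j) (fun c b => F c b (pl2 i j e X)) T) ≠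
            an i j (rd (nx i j) (fun c b => F c b X) T))).card : ℝ) ≤ ∑ i : Fin k, ∑ j : Fin k, (u : ℝ) := by
        refine sum_le_sum fun i _ => sum_le_sum fun j _ => ?_
        have := card_le_univ (univ.filter (fun e : Fin u =>
            an i j (rd (nx i j) (fun c b => F c b (pl2 i j e X)) T) ≠
            an i j (rd (nx i j) (fun c b => F c b X) T)))
        rw [Fintype.card_fin] at this
        exact_mod_cast this
      have h3 : ∑ i : Fin k, ∑ j : Fin k, (u : ℝ) = (k : ℝ) ^ 2 * u := by
        simp only [sum_const, card_univ, Fintype.card_fin, nsmul_eq_mul]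
        ring
      rw [h3] at h2
      have h4 : (k : ℝ) ^ 2 * u * 1 ≤ (k : ℝ) ^ 2 * u *
          (∑ c : Fin s, ∑ b : Fin w, (if V ≤ (sn (F c b) X).card then (1 : ℝ) else 0)) :=
        mul_le_mul_of_nonneg_left h1 (by positivity)
      have h5 : (0 : ℝ) ≤ (k : ℝ) ^ 2 * (2 * (T * w * V)) + ∑ c : Fin s, ∑ b : Fin w, ((jn (F c b) X).card : ℝ) := by
        positivity
      linarith
    · push Not at hbad
      have h1 : ∀ i j : Fin k, (univ.filter (fun e : Fin u =>
          an i j (rd (nx i j) (fun c b => F c b (pl2 i j e X)) T) ≠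
          an i j (rd (nx i j) (fun c b => F c b X) T))).card ≤
          2 * (T * w * V) + ∑ c, ∑ b, (univ.filter (fun e : Fin u =>
            (((false, i, e), (true, j, e)) : Slot k u × Slot k u) ∈ jn (F c b) X)).card :=
        fun i j => hQ k u s w T V F (nx i j) (an i j) i j X fun c b => (hbad c b).le
      have h2 : ∑ i : Fin k, ∑ j : Fin k, (univ.filter (fun e : Fin u =>
          an i j (rd (nx i j) (fun c b => F c b (pl2 i j e X)) T) ≠
          an i j (rd (nx i j) (fun c b => F c b X) T))).card ≤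
          k ^ 2 * (2 * (T * w * V)) + ∑ c, ∑ b, (jn (F c b) X).card := by
        calc _ ≤ ∑ i : Fin k, ∑ j : Fin k, (2 * (T * w * V) + ∑ c, ∑ b, (univ.filter (fun e : Fin u =>
            (((false, i, e), (true, j, e)) : Slot k u × Slot k u) ∈ jn (F c b) X)).card) :=
              sum_le_sum fun i _ => sum_le_sum fun j _ => h1 i j
          _ = k ^ 2 * (2 * (T * w * V)) + ∑ i : Fin k, ∑ j : Fin k, ∑ c, ∑ b, (univ.filter (fun e : Fin u =>
            (((false, i, e), (true, j, e)) : Slot k u × Slot k u) ∈ jn (F c b) X)).card := by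
              simp only [sum_add_distrib, sum_const, card_univ, Fintype.card_fin, smul_eq_mul]
              ring
          _ = k ^ 2 * (2 * (T * w * V)) + ∑ c, ∑ b, ∑ i : Fin k, ∑ j : Fin k, (univ.filter (fun e : Fin u =>
            (((false, i, e), (true, j, e)) : Slot k u × Slot k u) ∈ jn (F c b) X)).card := by
              congr 1
              have e1 : ∀ i : Fin k, ∑ j : Fin k, ∑ c, ∑ b, (univ.filter (fun e : Fin u =>
                  (((false, i, e), (true, j, e)) : Slot k u × Slot k u) ∈ jn (F c b) X)).card =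
                  ∑ c, ∑ b, ∑ j : Fin k, (univ.filter (fun e : Fin u =>
                  (((false, i, e), (true, j, e)) : Slot k u × Slot k u) ∈ jn (F c b) X)).card := by
                intro i
                rw [sum_comm]
                exact sum_congr rfl fun c _ => sum_comm
              rw [sum_congr rfl fun i _ => e1 i, sum_comm]
              exact sum_congr rfl fun c _ => sum_comm
          _ ≤ _ := Nat.add_le_add_left (sum_le_sum fun c _ => sum_le_sum fun b _ => card_pairs2 _) _
      have h3 : ∑ i : Fin k, ∑ j : Fin k, ((univ.filter (fun e : Fin u =>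
          an i j (rd (nx i j) (fun c b => F c b (pl2 i j e X)) T) ≠
          an i j (rd (nx i j) (fun c b => F c b X) T))).card : ℝ) ≤
          (k : ℝ) ^ 2 * (2 * (T * w * V)) + ∑ c : Fin s, ∑ b : Fin w, ((jn (F c b) X).card : ℝ) := by
        exact_mod_cast h2
      have h4 : 0 ≤ (k : ℝ) ^ 2 * u *
          (∑ c : Fin s, ∑ b : Fin w, (if V ≤ (sn (F c b) X).card then (1 : ℝ) else 0)) :=
        mul_nonneg (by positivity) (sum_nonneg fun c _ => hn1 c)
      linarith
  refine (Ex_mono hw0 hpt).trans ?_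
  rw [Ex_add, Ex_add, Ex_smul, Ex_const (vp_sum _), Ex_sum, Ex_sum]
  have h1 : ∑ c : Fin s, Ex (vp (y / 2)) (fun X : Slot k u → Bool =>
      ∑ b : Fin w, (if V ≤ (sn (F c b) X).card then (1 : ℝ) else 0)) ≤ 2 * (s * w) * η := by
    calc _ ≤ ∑ c : Fin s, ∑ b : Fin w, 2 * η := by
          refine sum_le_sum fun c _ => ?_
          rw [Ex_sum]
          exact sum_le_sum fun b _ => hT (Slot k u) (F c b) K V y q η hy0 hy1 hq0 hq1 (hη c b) hV
      _ = _ := by
          simp only [sum_const, card_univ, Fintype.card_fin, nsmul_eq_mul]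
          ring
  have hyq : 0 < (y * q) ^ 2 := by positivity
  have h2 : ∑ c : Fin s, Ex (vp (y / 2)) (fun X : Slot k u → Bool =>
      ∑ b : Fin w, ((jn (F c b) X).card : ℝ)) ≤
      (s * w) * (2 * (K : ℝ) ^ 2 + (2 * (k * u) : ℝ) ^ 2 * η) / (y * q) ^ 2 := by
    calc _ ≤ ∑ c : Fin s, ∑ b : Fin w, (2 * (K : ℝ) ^ 2 + (2 * (k * u) : ℝ) ^ 2 * η) / (y * q) ^ 2 := by
          refine sum_le_sum fun c _ => ?_
          rw [Ex_sum]
          refine sum_le_sum fun b _ => ?_
          have h3 := hP (Slot k u) (F c b) K y q η hy0 hy1 hq0 hq1 (hη c b)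
          have h4 : (Fintype.card (Slot k u) : ℝ) = 2 * (k * u) := by
            simp only [Fintype.card_prod, Fintype.card_bool, Fintype.card_fin]
            push_cast
            ring
          rw [h4] at h3
          rw [le_div_iff₀ hyq, mul_comm]
          exact h3
      _ = _ := by
          simp only [sum_const, card_univ, Fintype.card_fin, nsmul_eq_mul]
          ring
  have h3 : (k : ℝ) ^ 2 * u * (∑ c : Fin s, Ex (vp (y / 2)) (fun X : Slot k u → Bool =>
      ∑ b : Fin w, (if V ≤ (sn (F c b) X).card then (1 : ℝ) else 0))) ≤ (k : ℝ) ^ 2 * u * (2 * (s * w) * η) :=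
    mul_le_mul_of_nonneg_left h1 (by positivity)
  linarith

end Pool.Agent.J4H31.CD
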